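import Pool.Agent.N554.TG.Core
import Pool.Agent.N554.TG.Fin
import Pool.Agent.N353.TG.ASY
import Pool.Agent.N353.TG.GEO
import Pool.Agent.N547.TG.Num
import Pool.Agent.N547.TG.Rs
import Pool.Agent.N547.TG.Lift
import Pool.Agent.N547.TG.Ham

/-!
MP_ac2800_co: the chromatic number `χ(d)` of the tangency graphs of systems of nonoverlapping unit
balls of `ℝ^d` grows faster than every power of `d`: `χ(d) > exp (c (log d)² / log log d)` for all
large `d`. Parts of the proof by helper353 (geometry, parameters) and helper547 (Hamming supersaturation,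
Reed-Solomon blocks, lifting, numerical inequalities); container bound by Helper378.
-/

set_option autoImplicit false

namespace Pool.Agent.Results.MP_ac2800_co.Superpolynomial

open Pool.Agent.N554.TG

theorem result : ∃ c : ℝ, 0 < c ∧ ∃ D : ℕ, ∀ d : ℕ, D ≤ d → ∀ m : ℕ,
    (m : ℝ) ≤ Real.exp (c * Real.log d ^ 2 / Real.log (Real.log d)) → (m : ℕ∞) < chi d :=
  chi_bound (Pool.Agent.N353.TG.t_asy (Pool.Agent.N353.TG.t_geo
    (t_core (Pool.Agent.N547.TG.Lift.t_lift Pool.Agent.N547.TG.Ham.t_ham Pool.Agent.N547.TG.t_rs)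
      Pool.Agent.N547.TG.t_bad Pool.Agent.N547.TG.t_num) Pool.Agent.N547.TG.t_rs))

end Pool.Agent.Results.MP_ac2800_co.Superpolynomial
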